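import Pool.Agent.H96.AL.Targets1

/-!
Module EL: elementary bounds for sinh and cosh.
-/

set_option autoImplicit false

open Set Real

namespace Pool.Agent.H76.AL

theorem sinh_le_mul_cosh (x : ℝ) (hx : 0 ≤ x) : sinh x ≤ x * cosh x := by
  have hmono : MonotoneOn (fun t : ℝ => t * cosh t - sinh t) (Ici 0) := by
    apply monotoneOn_of_deriv_nonneg (convex_Ici 0)
    · fun_prop
    · fun_prop
    · intro t ht
      rw [interior_Ici] at ht
      have h1 : HasDerivAt (fun t : ℝ => t * cosh t - sinh t)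
          (1 * cosh t + t * sinh t - cosh t) t :=
        ((hasDerivAt_id t).mul (hasDerivAt_cosh t)).sub (hasDerivAt_sinh t)
      rw [h1.deriv]
      have h2 : 0 ≤ sinh t := sinh_nonneg_iff.2 (le_of_lt ht)
      have h3 : 0 ≤ t * sinh t := mul_nonneg (le_of_lt ht) h2
      linarith
  have h := hmono (mem_Ici.2 le_rfl) (mem_Ici.2 hx) hx
  simp only [zero_mul, sinh_zero, sub_zero] at h
  linarith

theorem cosh_sub_one (x : ℝ) : cosh x - 1 = 2 * sinh (x / 2) ^ 2 := by
  have h : cosh x = cosh (2 * (x / 2)) := by congr 1; ring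
  rw [h, cosh_two_mul, cosh_sq (x / 2)]
  ring

theorem el : Pool.Agent.H96.AL.T_EL := by
  intro D x hx hxD
  have hcD : cosh x ≤ cosh D := by
    rw [cosh_le_cosh, abs_of_nonneg hx, abs_of_nonneg (hx.trans hxD)]
    exact hxD
  have hs := sinh_le_mul_cosh x hx
  have hx2 : 0 ≤ x / 2 := by linarith
  have hs2 := sinh_le_mul_cosh (x / 2) hx2
  have hself : x / 2 ≤ sinh (x / 2) := self_le_sinh_iff.2 hx2
  have hc2 : 0 < cosh (x / 2) := cosh_pos _
  have hsn : 0 ≤ sinh (x / 2) := hx2.trans hself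
  have hceq : cosh (x / 2) ^ 2 = (1 + cosh x) / 2 := by
    have h1 := cosh_sub_one x
    have h2 := cosh_sq (x / 2)
    linarith
  have hone : 1 ≤ cosh x := one_le_cosh x
  refine ⟨self_le_sinh_iff.2 hx, ?_, ?_, ?_, ?_⟩
  · exact hs.trans (mul_le_mul_of_nonneg_left hcD hx)
  · rw [cosh_sub_one]
    nlinarith
  · rw [cosh_sub_one]
    have h1 : sinh (x / 2) ^ 2 ≤ (x / 2) ^ 2 * cosh (x / 2) ^ 2 := by
      calc sinh (x / 2) ^ 2 ≤ (x / 2 * cosh (x / 2)) ^ 2 := pow_le_pow_left₀ hsn hs2 2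
        _ = _ := by ring
    have h2 : cosh (x / 2) ^ 2 ≤ cosh D := by
      rw [hceq]; linarith
    have h3 : (x / 2) ^ 2 * cosh (x / 2) ^ 2 ≤ (x / 2) ^ 2 * cosh D :=
      mul_le_mul_of_nonneg_left h2 (sq_nonneg _)
    nlinarith
  · rw [cosh_sub_one]
    have h1 : sinh x = 2 * sinh (x / 2) * cosh (x / 2) := by
      have h : sinh x = sinh (2 * (x / 2)) := by congr 1; ring
      rw [h, sinh_two_mul]
    rw [h1]
    have h2 : sinh (x / 2) * sinh (x / 2) ≤ sinh (x / 2) * (x / 2 * cosh (x / 2)) :=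
      mul_le_mul_of_nonneg_left hs2 hsn
    nlinarith

end Pool.Agent.H76.AL
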