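import Pool.Agent.H96.AL.Targets3

/-!
Module OP: openness of the distance coordinates.
-/

set_option autoImplicit false

open Topology Set Filter Real

namespace Pool.Agent.H76.AL

open Pool.Agent.H96.AL

/-- One move towards the right value contradicts minimality. -/
theorem op_step {X : Type} [MetricSpace X] (m : ℕ) (a : Fin m → X)
    (κ ε : ℝ) (hκ0 : 0 < κ) (hκ : κ ≤ 1 / (12 * (m + 1))) (hε : ε = 1 / (100 * (m + 1)))
    (p : X) (v : Fin m → ℝ) (y w : X) (s : ℝ) (hs : 0 < s)
    (hd : dist w y = s) (i : Fin m)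
    (hi : |dist w (a i) - v i| ≤ |dist y (a i) - v i| - 98 / 100 * s)
    (hj : ∀ j, j ≠ i → |dist w (a j) - dist y (a j)| ≤ (3 * κ + ε) * s) :
    ∑ j, |dist w (a j) - v j| + dist p w / 2 < ∑ j, |dist y (a j) - v j| + dist p y / 2 := by
  classical
  have hm : (0 : ℝ) ≤ (m : ℝ) := Nat.cast_nonneg m
  have hm1 : (0 : ℝ) < (m : ℝ) + 1 := by linarith
  have h1 : ∀ j ∈ Finset.univ.erase i,
      |dist w (a j) - v j| ≤ |dist y (a j) - v j| + (3 * κ + ε) * s := by
    intro j hjm
    have hne : j ≠ i := Finset.ne_of_mem_erase hjm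
    have h2 := hj j hne
    have h3 : |dist w (a j) - v j| ≤ |dist w (a j) - dist y (a j)| + |dist y (a j) - v j| :=
      abs_sub_le _ _ _
    linarith
  have h2 := Finset.sum_le_sum h1
  rw [Finset.sum_add_distrib, Finset.sum_const, nsmul_eq_mul] at h2
  have hcard : ((Finset.univ.erase i).card : ℝ) ≤ (m : ℝ) := by
    have : (Finset.univ.erase i).card ≤ m := by
      calc (Finset.univ.erase i).card ≤ (Finset.univ : Finset (Fin m)).card :=
            Finset.card_le_card (Finset.erase_subset _ _)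
        _ = m := by simp
    exact_mod_cast this
  have h4 : 3 * κ * m ≤ 1 / 4 := by
    have h5 : κ * (12 * ((m : ℝ) + 1)) ≤ 1 := by
      have := mul_le_mul_of_nonneg_right hκ (show (0 : ℝ) ≤ 12 * ((m : ℝ) + 1) by positivity)
      rwa [div_mul_cancel₀ _ (by positivity)] at this
    nlinarith
  have h5 : ε * m ≤ 1 / 100 := by
    have h6 : ε * (100 * ((m : ℝ) + 1)) = 1 := by
      rw [hε]; field_simp
    have hε0 : 0 < ε := by rw [hε]; positivity
    nlinarith
  have hε0 : 0 < ε := by rw [hε]; positivity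
  have h6 : ((Finset.univ.erase i).card : ℝ) * ((3 * κ + ε) * s) ≤ 26 / 100 * s := by
    have h7 : ((Finset.univ.erase i).card : ℝ) * ((3 * κ + ε) * s) ≤ m * ((3 * κ + ε) * s) :=
      mul_le_mul_of_nonneg_right hcard (by positivity)
    have h8 : (m : ℝ) * ((3 * κ + ε) * s) = (3 * κ * m + ε * m) * s := by ring
    have h9 : (3 * κ * m + ε * m) * s ≤ (26 / 100) * s :=
      mul_le_mul_of_nonneg_right (by linarith) hs.le
    linarith
  have e1 : ∑ j, |dist w (a j) - v j| =
      |dist w (a i) - v i| + ∑ j ∈ Finset.univ.erase i, |dist w (a j) - v j| :=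
    (Finset.add_sum_erase _ (fun j => |dist w (a j) - v j|) (Finset.mem_univ i)).symm
  have e2 : ∑ j, |dist y (a j) - v j| =
      |dist y (a i) - v i| + ∑ j ∈ Finset.univ.erase i, |dist y (a j) - v j| :=
    (Finset.add_sum_erase _ (fun j => |dist y (a j) - v j|) (Finset.mem_univ i)).symm
  have h10 : dist p w ≤ dist p y + s := by
    have := dist_triangle p y w
    rw [dist_comm y w, hd] at this
    exact this
  rw [e1, e2]
  linarith

theorem op (mv : T_MV) : T_OP := by
  intro X _ _ geo cb m a b κ O hκ0 hκ hO hstr p ρ hρ hball v hv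
  have hm : (0 : ℝ) ≤ (m : ℝ) := Nat.cast_nonneg m
  have hcont : Continuous (fun w : X => ∑ i, |dist w (a i) - v i| + dist p w / 2) := by
    fun_prop
  obtain ⟨y, hy, hmin⟩ := (isCompact_closedBall p ρ).exists_isMinOn
    ⟨p, Metric.mem_closedBall_self hρ.le⟩ hcont.continuousOn
  have hmin' : ∀ w ∈ Metric.closedBall p ρ,
      ∑ i, |dist y (a i) - v i| + dist p y / 2 ≤ ∑ i, |dist w (a i) - v i| + dist p w / 2 :=
    fun w hw => hmin hw
  have h0 := hmin' p (Metric.mem_closedBall_self hρ.le)
  have h1 : ∑ i, |dist p (a i) - v i| = ∑ i, |v i - dist p (a i)| :=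
    Finset.sum_congr rfl fun i _ => abs_sub_comm _ _
  have h2 : 0 ≤ ∑ i, |dist y (a i) - v i| := Finset.sum_nonneg fun i _ => abs_nonneg _
  have hdy : dist p y < ρ / 2 := by
    rw [h1, dist_self] at h0
    linarith
  have hyO : y ∈ O := hball hy
  refine ⟨y, ?_, ?_⟩
  · rw [Metric.mem_ball, dist_comm]; linarith
  intro i
  have hm1 : (1 : ℝ) ≤ (m : ℝ) := by
    have : 1 ≤ m := by
      have := i.2
      omega
    exact_mod_cast this
  have hκ12 : κ ≤ 1 / 12 := by
    refine hκ.trans ?_
    apply one_div_le_one_div_of_le (by norm_num)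
    linarith
  set ε : ℝ := 1 / (100 * (m + 1)) with hε
  have hε0 : 0 < ε := by positivity
  have hε1 : ε ≤ 1 / 100 := by
    rw [hε]
    apply one_div_le_one_div_of_le (by norm_num)
    linarith
  obtain ⟨hA, hB⟩ := mv X geo cb m a b κ O hκ0 (by linarith) hO hstr y hyO i ε hε0
  by_contra hne
  -- a point `w` at distance `s` from `y`, in the closed ball
  have key : ∀ (w : X) (s : ℝ), 0 < s → s ≤ ρ / 2 → dist w y = s →
      |dist w (a i) - v i| ≤ |dist y (a i) - v i| - 98 / 100 * s →
      (∀ j, j ≠ i → |dist w (a j) - dist y (a j)| ≤ (3 * κ + ε) * s) → False := by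
    intro w s hs hsρ hd hi hj
    have hw : w ∈ Metric.closedBall p ρ := by
      rw [Metric.mem_closedBall, dist_comm]
      have := dist_triangle p y w
      rw [dist_comm y w, hd] at this
      linarith
    have h3 := hmin' w hw
    have h4 := op_step m a κ ε hκ0 hκ hε p v y w s hs hd i hi hj
    linarith
  rcases lt_or_gt_of_ne hne with hlt | hgt
  · -- move towards `b i`
    obtain ⟨γ, hγ⟩ := geo y (b i)
    have hev := hB γ hγ
    have hpos : 0 < min (ρ / 2) (v i - dist y (a i)) := lt_min (by linarith) (by linarith)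
    obtain ⟨s, ⟨hs1, hs2, hs3⟩, hs4, hs5⟩ := (hev.and (Ioo_mem_nhdsGT hpos)).exists
    have hsρ : s ≤ ρ / 2 := hs5.le.trans (min_le_left _ _)
    have hsv : s ≤ v i - dist y (a i) := hs5.le.trans (min_le_right _ _)
    apply key (γ s) s hs4 hsρ hs1 _ hs3
    have hup : dist (γ s) (a i) ≤ dist y (a i) + s := by
      have := dist_triangle (γ s) y (a i)
      rw [hs1] at this
      linarith
    have hk2 : κ ^ 2 ≤ 1 / 100 := by nlinarith
    rw [abs_of_nonpos (by linarith), abs_of_nonpos (by linarith)]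
    have : (1 - κ ^ 2 - ε) * s ≥ 98 / 100 * s := by
      apply mul_le_mul_of_nonneg_right _ hs4.le
      linarith
    linarith
  · -- move towards `a i`
    obtain ⟨γ, hγ⟩ := geo y (a i)
    have hev := hA γ hγ
    have hpos : 0 < min (ρ / 2) (dist y (a i) - v i) := lt_min (by linarith) (by linarith)
    obtain ⟨s, ⟨hs1, hs2, hs3⟩, hs4, hs5⟩ := (hev.and (Ioo_mem_nhdsGT hpos)).exists
    have hsρ : s ≤ ρ / 2 := hs5.le.trans (min_le_left _ _)
    have hsv : s ≤ dist y (a i) - v i := hs5.le.trans (min_le_right _ _)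
    apply key (γ s) s hs4 hsρ hs1 _ hs3
    rw [hs2, abs_of_nonneg (by linarith), abs_of_nonneg (by linarith)]
    linarith

end Pool.Agent.H76.AL
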